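import Mathlib
import Pool.Agent.R796.SCEnd

/-!
# MP_937632_gt, Q1: negative answer in `ℝ^N` for every `N ≥ 4`

Definitions:
* `Pool.Agent.R796.SC.IsSmoothClosedCurve M`: `M` is the image of a smooth embedding of the circle
  `ℝ / 2πℤ` in `ℝ^N`;
* `Pool.Agent.R796.Sh.rips β S`: the nonempty finite subsets of `S` of Euclidean diameter `< β`;
* `Pool.Agent.R796.Sh.shadow β S`: the union of the convex hulls of the simplices of `rips β S`.

There is a smooth simple closed curve `M` in `ℝ^N` such that for every sufficiently small scale
`β > 0` and every `δ > 0` there is a finite set `S` at Hausdorff distance `< δ` from `M` whose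
shadow is not homotopy equivalent to `M`.

The curve is planar and contains a straight segment. The sample contains, besides points of the
curve, four clusters of three points near the points `0`, `κβ`, `β`, `(κ - 1)β` of the segment. They
are chosen such that five convex pieces of the shadow (four of them are hulls of simplices) have
all their fourfold intersections nonempty and enclose a bounded component of the complement of the
shadow in an affine subspace `ℝ⁴`.
-/

set_option autoImplicit false

namespace Pool.Agent.Results.MP_937632_gt.CurvesInHighDim

open Pool.Agent.R796.SC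
open Pool.Agent.R796.Sh (shadow)

theorem result (N : ℕ) (hN : 4 ≤ N) : ∃ M : Set (E N), IsSmoothClosedCurve M ∧
    ∃ β₁ : ℝ, 0 < β₁ ∧ ∀ β : ℝ, 0 < β → β < β₁ → ∀ δ : ℝ, 0 < δ →
      ∃ S : Set (E N), S.Finite ∧ S.Nonempty ∧ Metric.hausdorffDist S M < δ ∧
        ¬ Nonempty (ContinuousMap.HomotopyEquiv (shadow β S) M) :=
  main N hN

end Pool.Agent.Results.MP_937632_gt.CurvesInHighDim
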